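import Pool.Agent.P8H22.GPTab0
import Pool.Agent.P8H22.GPTab1
import Pool.Agent.P8H22.GPTab2
import Pool.Agent.P8H22.GPTab3

/-!
# Nice permutations of `[0, K)` for every `K ≥ 32`
-/

namespace Pool.Agent.P8H22.GP

theorem nice_base (K : ℕ) (h1 : 32 ≤ K) (h2 : K ≤ 131) : ∃ σ, Nice (K : ℤ) σ := by
  have key : ∃ N M : ℕ, chk K N M = true := by
    interval_cases K
    · exact c32
    · exact c33
    · exact c34
    · exact c35
    · exact c36
    · exact c37
    · exact c38
    · exact c39
    · exact c40
    · exact c41
    · exact c42
    · exact c43
    · exact c44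
    · exact c45
    · exact c46
    · exact c47
    · exact c48
    · exact c49
    · exact c50
    · exact c51
    · exact c52
    · exact c53
    · exact c54
    · exact c55
    · exact c56
    · exact c57
    · exact c58
    · exact c59
    · exact c60
    · exact c61
    · exact c62
    · exact c63
    · exact c64
    · exact c65
    · exact c66
    · exact c67
    · exact c68
    · exact c69
    · exact c70
    · exact c71
    · exact c72
    · exact c73
    · exact c74
    · exact c75
    · exact c76
    · exact c77
    · exact c78
    · exact c79
    · exact c80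
    · exact c81
    · exact c82
    · exact c83
    · exact c84
    · exact c85
    · exact c86
    · exact c87
    · exact c88
    · exact c89
    · exact c90
    · exact c91
    · exact c92
    · exact c93
    · exact c94
    · exact c95
    · exact c96
    · exact c97
    · exact c98
    · exact c99
    · exact c100
    · exact c101
    · exact c102
    · exact c103
    · exact c104
    · exact c105
    · exact c106
    · exact c107
    · exact c108
    · exact c109
    · exact c110
    · exact c111
    · exact c112
    · exact c113
    · exact c114
    · exact c115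
    · exact c116
    · exact c117
    · exact c118
    · exact c119
    · exact c120
    · exact c121
    · exact c122
    · exact c123
    · exact c124
    · exact c125
    · exact c126
    · exact c127
    · exact c128
    · exact c129
    · exact c130
    · exact c131
  obtain ⟨N, M, h⟩ := key
  exact ⟨_, chk_nice K N M h1 h2 h⟩

theorem nice_all : ∀ K : ℕ, 32 ≤ K → ∃ σ, Nice (K : ℤ) σ := by
  intro K
  induction K using Nat.strong_induction_on with
  | _ K ih =>
    intro hK
    rcases le_or_gt K 131 with h | h
    · exact nice_base K hK h
    · obtain ⟨σ, hσ⟩ := ih (K / 4) (by omega) (by omega)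
      obtain ⟨τ, hτ⟩ := ih (K / 4 + 1) (by omega) (by omega)
      push_cast at hσ hτ
      have hl : (32 : ℤ) ≤ (K : ℤ) / 4 := by omega
      have A : (K : ℤ) / 4 ≤ (K : ℤ) / 4 ∧ (K : ℤ) / 4 ≤ (K : ℤ) / 4 + 1 := by omega
      have B : (K : ℤ) / 4 ≤ (K : ℤ) / 4 + 1 ∧ (K : ℤ) / 4 + 1 ≤ (K : ℤ) / 4 + 1 := by omega
      have hs : (K : ℤ) % 4 = 0 ∨ (K : ℤ) % 4 = 1 ∨ (K : ℤ) % 4 = 2 ∨ (K : ℤ) % 4 = 3 := by omega
      rcases hs with hs | hs | hs | hs
      · have := glue_nice hl A A A A hσ hσ hσ hσ
        exact ⟨_, by convert this using 1; omega⟩
      · have := glue_nice hl B A A A hτ hσ hσ hσ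
        exact ⟨_, by convert this using 1; omega⟩
      · have := glue_nice hl B B A A hτ hτ hσ hσ
        exact ⟨_, by convert this using 1; omega⟩
      · have := glue_nice hl B B B A hτ hτ hτ hσ
        exact ⟨_, by convert this using 1; omega⟩

end Pool.Agent.P8H22.GP
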