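import Pool.Agent.P8H22.GPCore

/-!
# Base cases: nice permutations of `[0, K)` for `32 ≤ K ≤ 131`

Permutations are encoded as base-256 digits of natural numbers (together with the inverse
permutation) and checked by the kernel.
-/

set_option linter.unusedVariables false

namespace Pool.Agent.P8H22.GP

/-- The `x`-th base-256 digit of `N`. -/
def dig (N x : ℕ) : ℕ := Nat.land (Nat.shiftRight N (Nat.mul 8 x)) 255

/-- `∀ i < n, f i`. -/
def allB (f : ℕ → Bool) : ℕ → Bool
  | 0 => true
  | n + 1 => f n && allB f n

theorem allB_spec (f : ℕ → Bool) (n : ℕ) (h : allB f n = true) : ∀ i, i < n → f i = true := by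
  induction n with
  | zero => intro i hi; omega
  | succ n ih =>
    simp only [allB, Bool.and_eq_true] at h
    intro i hi
    rcases Nat.lt_succ_iff_lt_or_eq.1 hi with h1 | h1
    · exact ih h.2 i h1
    · subst h1; exact h.1

/-- Boolean implication. -/
def imp (a b : Bool) : Bool := !a || b

/-- Check of a single point. -/
def chkPt (K x y iy : ℕ) : Bool :=
  Nat.blt y K && Nat.beq iy x &&
  imp (Nat.ble x 1) (Nat.ble (7 * K) (24 * y) && Nat.ble (24 * y) (9 * K)) &&
  imp (Nat.ble K (x + 2)) (Nat.ble (15 * K) (24 * y) && Nat.ble (24 * y) (17 * K)) &&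
  imp (Nat.ble y 1) (Nat.ble (15 * K) (24 * x) && Nat.ble (24 * x) (17 * K)) &&
  imp (Nat.ble K (y + 2)) (Nat.ble (7 * K) (24 * x) && Nat.ble (24 * x) (9 * K))

/-- Check of a triple `(b - t, b, b + t + e - 1)`. -/
def chkT (K N b w : ℕ) (t e : ℕ) : Bool :=
  (Nat.blt (b + t + e) (b + 2) && Nat.ble t 0) || Nat.blt K (b + t + e) ||
    (let v := dig N (b - t) + dig N (b + t + e - 1)
     Nat.ble (v + 2) w || Nat.ble (w + 2) v)

/-- The whole check for `(K, N, M)`: `N` encodes the permutation, `M` its inverse. -/
def chk (K N M : ℕ) : Bool :=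
  allB (fun x => let y := dig N x; chkPt K x y (dig M y)) K &&
  allB (fun b => let w := 2 * dig N b
    allB (fun t => chkT K N b w t 0 && chkT K N b w t 1 && chkT K N b w t 2) (b + 1)) K


theorem imp_spec {a b : Bool} (h : imp a b = true) (ha : a = true) : b = true := by
  subst ha; simpa [imp] using h

/-- The map encoded by `N`. -/
def perm (N : ℕ) (x : ℤ) : ℤ := (dig N x.toNat : ℤ)

theorem chk_nice (K N M : ℕ) (hK : 32 ≤ K) (hK' : K ≤ 131) (h : chk K N M = true) :
    Nice (K : ℤ) (perm N) := by
  simp only [chk, Bool.and_eq_true] at h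
  obtain ⟨hp, ht⟩ := h
  have hp := allB_spec _ _ hp
  have ht := allB_spec _ _ ht
  have P : ∀ x : ℕ, x < K → dig N x < K ∧ dig M (dig N x) = x ∧
      (x ≤ 1 → 7 * K ≤ 24 * dig N x ∧ 24 * dig N x ≤ 9 * K) ∧
      (K ≤ x + 2 → 15 * K ≤ 24 * dig N x ∧ 24 * dig N x ≤ 17 * K) ∧
      (dig N x ≤ 1 → 15 * K ≤ 24 * x ∧ 24 * x ≤ 17 * K) ∧
      (K ≤ dig N x + 2 → 7 * K ≤ 24 * x ∧ 24 * x ≤ 9 * K) := by
    intro x hx
    have := hp x hx
    simp only [chkPt, Bool.and_eq_true] at this
    obtain ⟨⟨⟨⟨⟨a1, a2⟩, a3⟩, a4⟩, a5⟩, a6⟩ := this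
    refine ⟨by simpa [Nat.blt] using a1, by simpa using a2, ?_, ?_, ?_, ?_⟩
    · intro h
      have := imp_spec a3 (by simpa using h)
      simpa using this
    · intro h
      have := imp_spec a4 (by simpa using h)
      simpa using this
    · intro h
      have := imp_spec a5 (by simpa using h)
      simpa using this
    · intro h
      have := imp_spec a6 (by simpa using h)
      simpa using this
  have T : ∀ a b c : ℕ, a < K → b < K → c < K → a ≤ c → a + c ≤ 2 * b + 1 → 2 * b ≤ a + c + 1 →
      ¬ (a = b ∧ c = b) →
      dig N a + dig N c + 2 ≤ 2 * dig N b ∨ 2 * dig N b + 2 ≤ dig N a + dig N c := by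
    intro a b c ha hb hc hac h1 h2 hne
    have hb' := ht b hb
    have hb'' := allB_spec _ _ hb' (b - a) (by omega)
    simp only [Bool.and_eq_true] at hb''
    obtain ⟨⟨u0, u1⟩, u2⟩ := hb''
    have key : ∀ e : ℕ, b + (b - a) + e - 1 = c → 1 ≤ b + (b - a) + e →
        ¬ (b - a = 0 ∧ e ≤ 1) → chkT K N b (2 * dig N b) (b - a) e = true →
        dig N a + dig N c + 2 ≤ 2 * dig N b ∨ 2 * dig N b + 2 ≤ dig N a + dig N c := by
      intro e he he1 hne' hch
      have hab : a ≤ b := by omega
      simp only [chkT, Bool.or_eq_true, Bool.and_eq_true] at hch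
      rw [he, show b - (b - a) = a by omega] at hch
      rcases hch with (hch | hch) | hch
      · exfalso
        obtain ⟨q1, q2⟩ := hch
        simp [Nat.blt] at q1 q2
        omega
      · exfalso
        simp [Nat.blt] at hch
        omega
      · simpa using hch
    have hab : a ≤ b := by omega
    rcases (by omega : c = b + (b - a) - 1 + 0 ∧ 1 ≤ b - a ∨ c = b + (b - a) ∨
      c = b + (b - a) + 1) with hh | hh | hh
    · exact key 0 (by omega) (by omega) (by omega) u0
    · exact key 1 (by omega) (by omega) (by omega) u1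
    · exact key 2 (by omega) (by omega) (by omega) u2
  refine ⟨?_, ?_, ?_⟩
  · intro x hx0 hx1
    have hx : x.toNat < K := by omega
    obtain ⟨p1, p2, p3, p4, p5, p6⟩ := P _ hx
    have hxx : (x.toNat : ℤ) = x := by omega
    simp only [perm]
    generalize dig N x.toNat = y at *
    generalize hX : x.toNat = X at *
    constructor
    · omega
    · omega
    · omega
    · omega
    · intro h; have := p3 (by omega); omega
    · intro h; have := p4 (by omega); omega
    · intro h; have := p5 (by omega); omega
    · intro h; have := p6 (by omega); omega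
    · by_cases hc : X ≤ 0
      · have := p3 (by omega); omega
      · omega
    · by_cases hc : K ≤ X + 1
      · have := p4 (by omega); omega
      · omega
    · by_cases hc : y ≤ 0
      · have := p5 (by omega); omega
      · omega
    · by_cases hc : K ≤ y + 1
      · have := p6 (by omega); omega
      · omega
  · intro x y hx0 hx1 hy0 hy1 e
    have hx : x.toNat < K := by omega
    have hy : y.toNat < K := by omega
    have e' : dig N x.toNat = dig N y.toNat := by
      simp only [perm] at e
      exact_mod_cast e
    have h1 := (P _ hx).2.1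
    have h2 := (P _ hy).2.1
    rw [e', h2] at h1
    omega
  · intro a b c a0 a1 b0 b1 c0 c1 i1 i2 o1 o2
    by_contra hne
    simp only [perm] at o1 o2
    rcases le_total a c with hac | hac
    · have := T a.toNat b.toNat c.toNat (by omega) (by omega) (by omega) (by omega) (by omega)
        (by omega) (by omega)
      omega
    · have := T c.toNat b.toNat a.toNat (by omega) (by omega) (by omega) (by omega) (by omega)
        (by omega) (by omega)
      omega

end Pool.Agent.P8H22.GP
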