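import Pool.Agent.P8H22.GPChk

/-!
# A good permutation of `ℤ/372`

It is a product, under `ℤ/372 = ℤ/12 × ℤ/31`, of two permutations avoiding complementary sets of
offset patterns.
-/

set_option linter.unusedVariables false

namespace Pool.Agent.P8H22.GP

/-- A permutation of `[0, m)`, fixing `0`, which is good modulo `m`. -/
structure Coarse (m : ℤ) (P : ℤ → ℤ) : Prop where
  maps : ∀ i, 0 ≤ i → i < m → 0 ≤ P i ∧ P i < m
  inj : ∀ i j, 0 ≤ i → i < m → 0 ≤ j → j < m → P i = P j → i = j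
  zero : P 0 = 0
  good : ∀ i j k u v, 0 ≤ i → i < m → 0 ≤ j → j < m → 0 ≤ k → k < m →
    -1 ≤ i + k - 2 * j - u * m → i + k - 2 * j - u * m ≤ 1 →
    -1 ≤ P i + P k - 2 * P j - v * m → P i + P k - 2 * P j - v * m ≤ 1 → i = j ∧ k = j

/-- Permutation of `[0, 12)`. -/
def p12 (i : ℕ) : ℕ := List.getD [0, 9, 10, 5, 4, 7, 2, 1, 6, 3, 8, 11] i 0

/-- Permutation of `[0, 31)`. -/
def p31 (i : ℕ) : ℕ := List.getD
  [0, 10, 1, 17, 29, 14, 2, 13, 28, 19, 4, 16, 30, 22, 5, 18, 3, 23, 8, 25, 9, 20, 6, 21, 7, 26, 11, 24, 12, 27, 15] i 0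

/-- Check of the pair `(a, b)` modulo 12, offset `e - 1`. -/
def q12 (a b e : ℕ) : Bool :=
  let v := (p12 a + p12 ((2 * b + 12 - a + e + 11) % 12) + 24 - 2 * p12 b) % 12
  if e = 1 then (v != 0 || a == b) && v != 1 && v != 11 else v != 0

/-- Check of the pair `(a, b)` modulo 31, offset `e - 1`. -/
def q31 (a b e : ℕ) : Bool :=
  let v := (p31 a + p31 ((2 * b + 31 - a + e + 30) % 31) + 62 - 2 * p31 b) % 31
  if e = 1 then (v != 0 || a == b) else v != 1 && v != 30

theorem q12_all : allB (fun a => allB (fun b => allB (fun e => q12 a b e) 3) 12) 12 = true := by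
  decide +kernel

theorem q31_all : allB (fun a => allB (fun b => allB (fun e => q31 a b e) 3) 31) 31 = true := by
  decide +kernel

theorem p12_chk (a : ℕ) (ha : a < 12) (b : ℕ) (hb : b < 12) (e : ℕ) (he : e < 3) :
    (e = 1 → ((p12 a + p12 ((2 * b + 12 - a + e + 11) % 12) + 24 - 2 * p12 b) % 12 = 0 → a = b) ∧
      ((p12 a + p12 ((2 * b + 12 - a + e + 11) % 12) + 24 - 2 * p12 b) % 12 ≠ 1) ∧
      ((p12 a + p12 ((2 * b + 12 - a + e + 11) % 12) + 24 - 2 * p12 b) % 12 ≠ 11)) ∧
    (e ≠ 1 → ((p12 a + p12 ((2 * b + 12 - a + e + 11) % 12) + 24 - 2 * p12 b) % 12 ≠ 0)) := by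
  have h := allB_spec _ _ (allB_spec _ _ (allB_spec _ _ q12_all a ha) b hb) e he
  simp only [q12] at h
  generalize (p12 a + p12 ((2 * b + 12 - a + e + 11) % 12) + 24 - 2 * p12 b) % 12 = v at *
  by_cases h1 : e = 1
  · simp only [h1, if_true, Bool.and_eq_true, Bool.or_eq_true, bne_iff_ne, beq_iff_eq] at h
    refine ⟨fun _ => ⟨fun hv => ?_, h.1.2, h.2⟩, fun h' => absurd h1 h'⟩
    rcases h.1.1 with h2 | h2
    · exact absurd hv h2
    · exact h2
  · simp only [h1, if_false, bne_iff_ne] at h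
    exact ⟨fun h' => absurd h' h1, fun _ => h⟩

theorem p31_chk (a : ℕ) (ha : a < 31) (b : ℕ) (hb : b < 31) (e : ℕ) (he : e < 3) :
    (e = 1 → ((p31 a + p31 ((2 * b + 31 - a + e + 30) % 31) + 62 - 2 * p31 b) % 31 = 0 → a = b)) ∧
    (e ≠ 1 → ((p31 a + p31 ((2 * b + 31 - a + e + 30) % 31) + 62 - 2 * p31 b) % 31 ≠ 1) ∧
      ((p31 a + p31 ((2 * b + 31 - a + e + 30) % 31) + 62 - 2 * p31 b) % 31 ≠ 30)) := by
  have h := allB_spec _ _ (allB_spec _ _ (allB_spec _ _ q31_all a ha) b hb) e he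
  simp only [q31] at h
  generalize (p31 a + p31 ((2 * b + 31 - a + e + 30) % 31) + 62 - 2 * p31 b) % 31 = v at *
  by_cases h1 : e = 1
  · simp only [h1, if_true, Bool.or_eq_true, bne_iff_ne, beq_iff_eq] at h
    refine ⟨fun _ hv => ?_, fun h' => absurd h1 h'⟩
    rcases h with h2 | h2
    · exact absurd hv h2
    · exact h2
  · simp only [h1, if_false, Bool.and_eq_true, bne_iff_ne] at h
    exact ⟨fun h' => absurd h' h1, fun _ => h⟩

theorem p12_inj : ∀ a < 12, ∀ b < 12, p12 a = p12 b → a = b := by decide +kernel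
theorem p31_inj : ∀ a < 31, ∀ b < 31, p31 a = p31 b → a = b := by decide +kernel
theorem p12_lt : ∀ a < 12, p12 a < 12 := by decide +kernel
theorem p31_lt : ∀ a < 31, p31 a < 31 := by decide +kernel

/-- The good permutation of `[0, 372)`. -/
def P372 (i : ℤ) : ℤ := (217 * (p12 (i % 12).toNat : ℤ) + 156 * (p31 (i % 31).toNat : ℤ)) % 372

/-- Modulo 12: both offsets are zero and the triple is constant, or both are nonzero. -/
theorem mod12 (i j k e d : ℤ) (he : -1 ≤ e ∧ e ≤ 1) (hd : -1 ≤ d ∧ d ≤ 1)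
    (h : (i + k - 2 * j - e) % 12 = 0)
    (h' : ((p12 (i % 12).toNat : ℤ) + (p12 (k % 12).toNat : ℤ) - 2 * (p12 (j % 12).toNat : ℤ) - d)
      % 12 = 0) :
    (e = 0 ∧ d = 0 ∧ i % 12 = j % 12) ∨ (e ≠ 0 ∧ d ≠ 0) := by
  have hi : (i % 12).toNat < 12 := by omega
  have hj : (j % 12).toNat < 12 := by omega
  have hk : (k % 12).toNat < 12 := by omega
  have C := p12_chk _ hi _ hj (e + 1).toNat (by omega)
  have hc : (2 * (j % 12).toNat + 12 - (i % 12).toNat + (e + 1).toNat + 11) % 12
      = (k % 12).toNat := by omega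
  rw [hc] at C
  have b1 := p12_lt _ hi
  have b2 := p12_lt _ hj
  have b3 := p12_lt _ hk
  generalize p12 (i % 12).toNat = x at *
  generalize p12 (j % 12).toNat = y at *
  generalize p12 (k % 12).toNat = z at *
  obtain ⟨C1, C2⟩ := C
  by_cases h0 : e = 0
  · obtain ⟨D1, D2, D3⟩ := C1 (by omega)
    by_cases hd0 : d = 0
    · left
      have := D1 (by omega)
      omega
    · exfalso
      rcases (by omega : d = 1 ∨ d = -1) with h1 | h1
      · apply D2; omega
      · apply D3; omega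
  · have D := C2 (by omega)
    right
    refine ⟨h0, fun hd0 => ?_⟩
    apply D; omega

/-- Modulo 31: both offsets are zero and the triple is constant, or exactly one is nonzero. -/
theorem mod31 (i j k e d : ℤ) (he : -1 ≤ e ∧ e ≤ 1) (hd : -1 ≤ d ∧ d ≤ 1)
    (h : (i + k - 2 * j - e) % 31 = 0)
    (h' : ((p31 (i % 31).toNat : ℤ) + (p31 (k % 31).toNat : ℤ) - 2 * (p31 (j % 31).toNat : ℤ) - d)
      % 31 = 0) :
    (e = 0 ∧ d = 0 ∧ i % 31 = j % 31) ∨ (e = 0 ∧ d ≠ 0) ∨ (e ≠ 0 ∧ d = 0) := by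
  have hi : (i % 31).toNat < 31 := by omega
  have hj : (j % 31).toNat < 31 := by omega
  have hk : (k % 31).toNat < 31 := by omega
  have C := p31_chk _ hi _ hj (e + 1).toNat (by omega)
  have hc : (2 * (j % 31).toNat + 31 - (i % 31).toNat + (e + 1).toNat + 30) % 31
      = (k % 31).toNat := by omega
  rw [hc] at C
  have b1 := p31_lt _ hi
  have b2 := p31_lt _ hj
  have b3 := p31_lt _ hk
  generalize p31 (i % 31).toNat = x at *
  generalize p31 (j % 31).toNat = y at *
  generalize p31 (k % 31).toNat = z at *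
  obtain ⟨C1, C2⟩ := C
  by_cases h0 : e = 0
  · have D1 := C1 (by omega)
    by_cases hd0 : d = 0
    · left
      have := D1 (by omega)
      omega
    · right; left; exact ⟨h0, hd0⟩
  · obtain ⟨D1, D2⟩ := C2 (by omega)
    right; right
    refine ⟨h0, ?_⟩
    by_contra hd0
    rcases (by omega : d = 1 ∨ d = -1) with h1 | h1
    · apply D1; omega
    · apply D2; omega

theorem P372_mod12 (i : ℤ) : P372 i % 12 = (p12 (i % 12).toNat : ℤ) % 12 := by
  unfold P372
  generalize p12 (i % 12).toNat = x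
  generalize p31 (i % 31).toNat = y
  omega

theorem P372_mod31 (i : ℤ) : P372 i % 31 = (p31 (i % 31).toNat : ℤ) % 31 := by
  unfold P372
  generalize p12 (i % 12).toNat = x
  generalize p31 (i % 31).toNat = y
  omega

theorem P372_off12 (i j k v d : ℤ) (hd : d = P372 i + P372 k - 2 * P372 j - v * 372) :
    ((p12 (i % 12).toNat : ℤ) + (p12 (k % 12).toNat : ℤ) - 2 * (p12 (j % 12).toNat : ℤ) - d)
      % 12 = 0 := by
  have h1 := P372_mod12 i
  have h2 := P372_mod12 j
  have h3 := P372_mod12 k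
  generalize P372 i = x at *
  generalize P372 j = y at *
  generalize P372 k = z at *
  generalize p12 (i % 12).toNat = x' at *
  generalize p12 (j % 12).toNat = y' at *
  generalize p12 (k % 12).toNat = z' at *
  omega

theorem P372_off31 (i j k v d : ℤ) (hd : d = P372 i + P372 k - 2 * P372 j - v * 372) :
    ((p31 (i % 31).toNat : ℤ) + (p31 (k % 31).toNat : ℤ) - 2 * (p31 (j % 31).toNat : ℤ) - d)
      % 31 = 0 := by
  have h1 := P372_mod31 i
  have h2 := P372_mod31 j
  have h3 := P372_mod31 k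
  generalize P372 i = x at *
  generalize P372 j = y at *
  generalize P372 k = z at *
  generalize p31 (i % 31).toNat = x' at *
  generalize p31 (j % 31).toNat = y' at *
  generalize p31 (k % 31).toNat = z' at *
  omega

theorem coarse372 : Coarse 372 P372 := by
  refine ⟨?_, ?_, ?_, ?_⟩
  · intro i h0 h1
    unfold P372
    omega
  · intro i j hi0 hi1 hj0 hj1 h
    have hi : (i % 12).toNat < 12 := by omega
    have hj : (j % 12).toNat < 12 := by omega
    have hi' : (i % 31).toNat < 31 := by omega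
    have hj' : (j % 31).toNat < 31 := by omega
    have b1 := p12_lt _ hi
    have b2 := p12_lt _ hj
    have b3 := p31_lt _ hi'
    have b4 := p31_lt _ hj'
    have e1 := p12_inj _ hi _ hj
    have e2 := p31_inj _ hi' _ hj'
    unfold P372 at h
    have e1' := e1 (by omega)
    have e2' := e2 (by omega)
    omega
  · decide +kernel
  · intro i j k u v i0 i1 j0 j1 k0 k1 h1 h2 h3 h4
    obtain ⟨e, he⟩ : ∃ e, e = i + k - 2 * j - u * 372 := ⟨_, rfl⟩
    obtain ⟨d, hd⟩ : ∃ d, d = P372 i + P372 k - 2 * P372 j - v * 372 := ⟨_, rfl⟩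
    have A := mod12 i j k e d (by omega) (by omega) (by omega) (P372_off12 i j k v d hd)
    have B := mod31 i j k e d (by omega) (by omega) (by omega) (P372_off31 i j k v d hd)
    have hd' : d = P372 k + P372 i - 2 * P372 j - v * 372 := by omega
    have A' := mod12 k j i e d (by omega) (by omega) (by omega) (P372_off12 k j i v d hd')
    have B' := mod31 k j i e d (by omega) (by omega) (by omega) (P372_off31 k j i v d hd')
    clear hd hd' h3 h4
    omega

end Pool.Agent.P8H22.GP
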