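import Mathlib

/-!
# Integer-good permutations of an interval

`Nice K σ`: `σ` permutes `[0, K)`, destroys approximate three-term progressions, and its corner
behaviour is controlled.  The main result is a gluing lemma producing a nice permutation of
`[0, d₀ + d₁ + d₂ + d₃)` from nice permutations of `[0, dᵢ)`, `dᵢ ∈ {l, l + 1}`, `l ≥ 32`.
-/

set_option linter.unusedVariables false

namespace Pool.Agent.P8H22.GP

/-- Data of a point `(f, g)` of a nice permutation of `[0, d)`. -/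
structure Pt (d f g : ℤ) : Prop where
  f0 : 0 ≤ f
  f1 : f < d
  g0 : 0 ≤ g
  g1 : g < d
  t1 : f ≤ 1 → 7 * d ≤ 24 * g ∧ 24 * g ≤ 9 * d
  t2 : d - 2 ≤ f → 15 * d ≤ 24 * g ∧ 24 * g ≤ 17 * d
  t3 : g ≤ 1 → 15 * d ≤ 24 * f ∧ 24 * f ≤ 17 * d
  t4 : d - 2 ≤ g → 7 * d ≤ 24 * f ∧ 24 * f ≤ 9 * d
  l1 : 7 * d - 2000 * f ≤ 24 * g ∧ 24 * g ≤ 9 * d + 2000 * f
  l2 : 15 * d - 2000 * (d - 1 - f) ≤ 24 * g ∧ 24 * g ≤ 17 * d + 2000 * (d - 1 - f)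
  l3 : 15 * d - 2000 * g ≤ 24 * f ∧ 24 * f ≤ 17 * d + 2000 * g
  l4 : 7 * d - 2000 * (d - 1 - g) ≤ 24 * f ∧ 24 * f ≤ 9 * d + 2000 * (d - 1 - g)

/-- A nice permutation of `[0, K)`. -/
structure Nice (K : ℤ) (σ : ℤ → ℤ) : Prop where
  pt : ∀ x, 0 ≤ x → x < K → Pt K x (σ x)
  inj : ∀ x y, 0 ≤ x → x < K → 0 ≤ y → y < K → σ x = σ y → x = y
  good : ∀ a b c, 0 ≤ a → a < K → 0 ≤ b → b < K → 0 ≤ c → c < K →
    -1 ≤ a + c - 2 * b → a + c - 2 * b ≤ 1 →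
    -1 ≤ σ a + σ c - 2 * σ b → σ a + σ c - 2 * σ b ≤ 1 → a = b ∧ c = b

/-- The glued map. -/
def glue (d0 d1 d2 d3 : ℤ) (s0 s1 s2 s3 : ℤ → ℤ) (x : ℤ) : ℤ :=
  if x < d0 then d2 + s0 x
  else if x < d0 + d1 then d2 + d0 + d3 + s1 (x - d0)
  else if x < d0 + d1 + d2 then s2 (x - (d0 + d1))
  else d2 + d0 + s3 (x - (d0 + d1 + d2))

/-- Decomposition of a point of the glued map. -/
inductive Dec (d0 d1 d2 d3 : ℤ) (s0 s1 s2 s3 : ℤ → ℤ) (x y : ℤ) : Prop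
  | b0 (f : ℤ) (h : Pt d0 f (s0 f)) (hx : x = f) (hy : y = d2 + s0 f) : Dec ..
  | b1 (f : ℤ) (h : Pt d1 f (s1 f)) (hx : x = d0 + f) (hy : y = d2 + d0 + d3 + s1 f) : Dec ..
  | b2 (f : ℤ) (h : Pt d2 f (s2 f)) (hx : x = d0 + d1 + f) (hy : y = s2 f) : Dec ..
  | b3 (f : ℤ) (h : Pt d3 f (s3 f)) (hx : x = d0 + d1 + d2 + f) (hy : y = d2 + d0 + s3 f) : Dec ..

section
variable {l d0 d1 d2 d3 : ℤ} {s0 s1 s2 s3 : ℤ → ℤ}

theorem glue_dec (hl : 32 ≤ l) (h0 : l ≤ d0 ∧ d0 ≤ l + 1) (h1 : l ≤ d1 ∧ d1 ≤ l + 1)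
    (h2 : l ≤ d2 ∧ d2 ≤ l + 1) (h3 : l ≤ d3 ∧ d3 ≤ l + 1)
    (n0 : Nice d0 s0) (n1 : Nice d1 s1) (n2 : Nice d2 s2) (n3 : Nice d3 s3)
    (x : ℤ) (hx0 : 0 ≤ x) (hx1 : x < d0 + d1 + d2 + d3) :
    Dec d0 d1 d2 d3 s0 s1 s2 s3 x (glue d0 d1 d2 d3 s0 s1 s2 s3 x) := by
  unfold glue
  split_ifs with c0 c1 c2
  · exact Dec.b0 x (n0.pt x hx0 c0) rfl rfl
  · exact Dec.b1 (x - d0) (n1.pt _ (by omega) (by omega)) (by omega) rfl
  · exact Dec.b2 (x - (d0 + d1)) (n2.pt _ (by omega) (by omega)) (by omega) rfl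
  · exact Dec.b3 (x - (d0 + d1 + d2)) (n3.pt _ (by omega) (by omega)) (by omega) rfl

theorem glue_pt (hl : 32 ≤ l) (h0 : l ≤ d0 ∧ d0 ≤ l + 1) (h1 : l ≤ d1 ∧ d1 ≤ l + 1)
    (h2 : l ≤ d2 ∧ d2 ≤ l + 1) (h3 : l ≤ d3 ∧ d3 ≤ l + 1) {x y : ℤ}
    (h : Dec d0 d1 d2 d3 s0 s1 s2 s3 x y) : Pt (d0 + d1 + d2 + d3) x y := by
  obtain ⟨h0a, h0b⟩ := h0
  obtain ⟨h1a, h1b⟩ := h1
  obtain ⟨h2a, h2b⟩ := h2
  obtain ⟨h3a, h3b⟩ := h3
  cases h with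
  | b0 f h hx hy =>
    obtain ⟨f0, f1, g0, g1, t1, t2, t3, t4, l1, l2, l3, l4⟩ := h
    constructor
    · omega
    · omega
    · omega
    · omega
    · intro h; have := t1 (by omega); omega
    · intro h; omega
    · intro h; omega
    · intro h; omega
    · omega
    · omega
    · omega
    · omega
  | b1 f h hx hy =>
    obtain ⟨f0, f1, g0, g1, t1, t2, t3, t4, l1, l2, l3, l4⟩ := h
    constructor
    · omega
    · omega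
    · omega
    · omega
    · intro h; omega
    · intro h; omega
    · intro h; omega
    · intro h; have := t4 (by omega); omega
    · omega
    · omega
    · omega
    · omega
  | b2 f h hx hy =>
    obtain ⟨f0, f1, g0, g1, t1, t2, t3, t4, l1, l2, l3, l4⟩ := h
    constructor
    · omega
    · omega
    · omega
    · omega
    · intro h; omega
    · intro h; omega
    · intro h; have := t3 (by omega); omega
    · intro h; omega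
    · omega
    · omega
    · omega
    · omega
  | b3 f h hx hy =>
    obtain ⟨f0, f1, g0, g1, t1, t2, t3, t4, l1, l2, l3, l4⟩ := h
    constructor
    · omega
    · omega
    · omega
    · omega
    · intro h; omega
    · intro h; have := t2 (by omega); omega
    · intro h; omega
    · intro h; omega
    · omega
    · omega
    · omega
    · omega

theorem glue_inj (hl : 32 ≤ l) (h0 : l ≤ d0 ∧ d0 ≤ l + 1) (h1 : l ≤ d1 ∧ d1 ≤ l + 1)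
    (h2 : l ≤ d2 ∧ d2 ≤ l + 1) (h3 : l ≤ d3 ∧ d3 ≤ l + 1)
    (n0 : Nice d0 s0) (n1 : Nice d1 s1) (n2 : Nice d2 s2) (n3 : Nice d3 s3) {x x' y : ℤ}
    (h : Dec d0 d1 d2 d3 s0 s1 s2 s3 x y) (h' : Dec d0 d1 d2 d3 s0 s1 s2 s3 x' y) : x = x' := by
  obtain ⟨h0a, h0b⟩ := h0
  obtain ⟨h1a, h1b⟩ := h1
  obtain ⟨h2a, h2b⟩ := h2
  obtain ⟨h3a, h3b⟩ := h3
  rcases h with ⟨f, h, hx, hy⟩ | ⟨f, h, hx, hy⟩ | ⟨f, h, hx, hy⟩ | ⟨f, h, hx, hy⟩ <;>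
  rcases h' with ⟨f', h', hx', hy'⟩ | ⟨f', h', hx', hy'⟩ | ⟨f', h', hx', hy'⟩ | ⟨f', h', hx', hy'⟩ <;>
  have e1 := h.f0 <;> have e2 := h.f1 <;> have e3 := h.g0 <;> have e4 := h.g1 <;>
  have e1' := h'.f0 <;> have e2' := h'.f1 <;> have e3' := h'.g0 <;> have e4' := h'.g1 <;>
  first
  | omega
  | (have := n0.inj f f' e1 e2 e1' e2' (by omega); omega)
  | (have := n1.inj f f' e1 e2 e1' e2' (by omega); omega)
  | (have := n2.inj f f' e1 e2 e1' e2' (by omega); omega)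
  | (have := n3.inj f f' e1 e2 e1' e2' (by omega); omega)

/-- Two points at the top and one at the bottom (or conversely) of the domain side, or of the
range side, of three blocks. -/
theorem glue_good (hl : 32 ≤ l) (h0 : l ≤ d0 ∧ d0 ≤ l + 1) (h1 : l ≤ d1 ∧ d1 ≤ l + 1)
    (h2 : l ≤ d2 ∧ d2 ≤ l + 1) (h3 : l ≤ d3 ∧ d3 ≤ l + 1)
    (n0 : Nice d0 s0) (n1 : Nice d1 s1) (n2 : Nice d2 s2) (n3 : Nice d3 s3)
    {a b c ya yb yc : ℤ}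
    (ha : Dec d0 d1 d2 d3 s0 s1 s2 s3 a ya) (hb : Dec d0 d1 d2 d3 s0 s1 s2 s3 b yb)
    (hc : Dec d0 d1 d2 d3 s0 s1 s2 s3 c yc)
    (i1 : -1 ≤ a + c - 2 * b) (i2 : a + c - 2 * b ≤ 1)
    (o1 : -1 ≤ ya + yc - 2 * yb) (o2 : ya + yc - 2 * yb ≤ 1) : a = b ∧ c = b := by
  obtain ⟨h0a, h0b⟩ := h0
  obtain ⟨h1a, h1b⟩ := h1
  obtain ⟨h2a, h2b⟩ := h2
  obtain ⟨h3a, h3b⟩ := h3
  rcases ha with ⟨f, h, hx, hy⟩ | ⟨f, h, hx, hy⟩ | ⟨f, h, hx, hy⟩ | ⟨f, h, hx, hy⟩ <;>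
  rcases hb with ⟨f', h', hx', hy'⟩ | ⟨f', h', hx', hy'⟩ | ⟨f', h', hx', hy'⟩ | ⟨f', h', hx', hy'⟩ <;>
  rcases hc with ⟨k, m, kx, ky⟩ | ⟨k, m, kx, ky⟩ | ⟨k, m, kx, ky⟩ | ⟨k, m, kx, ky⟩ <;>
  have e1 := h.f0 <;> have e2 := h.f1 <;> have e3 := h.g0 <;> have e4 := h.g1 <;>
  have e1' := h'.f0 <;> have e2' := h'.f1 <;> have e3' := h'.g0 <;> have e4' := h'.g1 <;>
  have m1 := m.f0 <;> have m2 := m.f1 <;> have m3 := m.g0 <;> have m4 := m.g1 <;>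
  first
  | omega
  | (have := n0.good f f' k e1 e2 e1' e2' m1 m2 (by omega) (by omega) (by omega) (by omega); omega)
  | (have := n1.good f f' k e1 e2 e1' e2' m1 m2 (by omega) (by omega) (by omega) (by omega); omega)
  | (have := n2.good f f' k e1 e2 e1' e2' m1 m2 (by omega) (by omega) (by omega) (by omega); omega)
  | (have := n3.good f f' k e1 e2 e1' e2' m1 m2 (by omega) (by omega) (by omega) (by omega); omega)
  | (have q1 := h.t2 (by omega); have q2 := m.t2 (by omega); have q3 := h'.t1 (by omega); omega)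
  | (have q1 := h.t1 (by omega); have q2 := m.t1 (by omega); have q3 := h'.t2 (by omega); omega)
  | (have q1 := h.t4 (by omega); have q2 := m.t4 (by omega); have q3 := h'.t3 (by omega); omega)
  | (have q1 := h.t3 (by omega); have q2 := m.t3 (by omega); have q3 := h'.t4 (by omega); omega)

theorem glue_nice (hl : 32 ≤ l) (h0 : l ≤ d0 ∧ d0 ≤ l + 1) (h1 : l ≤ d1 ∧ d1 ≤ l + 1)
    (h2 : l ≤ d2 ∧ d2 ≤ l + 1) (h3 : l ≤ d3 ∧ d3 ≤ l + 1)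
    (n0 : Nice d0 s0) (n1 : Nice d1 s1) (n2 : Nice d2 s2) (n3 : Nice d3 s3) :
    Nice (d0 + d1 + d2 + d3) (glue d0 d1 d2 d3 s0 s1 s2 s3) := by
  have D := glue_dec hl h0 h1 h2 h3 n0 n1 n2 n3
  refine ⟨fun x hx hx' => glue_pt hl h0 h1 h2 h3 (D x hx hx'), ?_, ?_⟩
  · intro x y hx hx' hy hy' e
    have h1' := D x hx hx'
    have h2' := D y hy hy'
    rw [← e] at h2'
    exact glue_inj hl h0 h1 h2 h3 n0 n1 n2 n3 h1' h2'
  · intro a b c a0 a1 b0 b1 c0 c1 i1 i2 o1 o2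
    exact glue_good hl h0 h1 h2 h3 n0 n1 n2 n3 (D a a0 a1) (D b b0 b1) (D c c0 c1) i1 i2 o1 o2

end

end Pool.Agent.P8H22.GP
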