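import Pool.Agent.P8H22.GPAll
import Pool.Agent.P8H22.GPCoarse

/-!
# Lifting a coarse good permutation of `ℤ/m` to `ℤ/n`, `n = m k + r`
-/

set_option linter.unusedVariables false

namespace Pool.Agent.P8H22.GP

/-- The purely arithmetic heart of the lift: two points near one end and one point near the other
end of a block are mapped to places whose offset is not close to a multiple of `k`. -/
theorem key {k r : ℤ} (hr : 0 ≤ r) (hk : 100000 * (r + 1) ≤ k)
    {da db dc fa fb fc ga gb gc z z' e1 e2 : ℤ}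
    (ha : Pt da fa ga) (hb : Pt db fb gb) (hc : Pt dc fc gc)
    (hda : k ≤ da ∧ da ≤ k + r) (hdb : k ≤ db ∧ db ≤ k + r) (hdc : k ≤ dc ∧ dc ≤ k + r)
    (he1 : -(3 * r + 1) ≤ e1 ∧ e1 ≤ 3 * r + 1) (he2 : -(3 * r + 1) ≤ e2 ∧ e2 ≤ 3 * r + 1)
    (h1 : k * z = -(fa + fc - 2 * fb) + e1) (h2 : k * z' = -(ga + gc - 2 * gb) + e2)
    (hz : z = 2 ∨ z = -2 ∨ z' = 2 ∨ z' = -2) : False := by
  obtain ⟨a1, a2, a3, a4, -, -, -, -, a5, a6, a7, a8⟩ := ha
  obtain ⟨b1, b2, b3, b4, -, -, -, -, b5, b6, b7, b8⟩ := hb
  obtain ⟨c1, c2, c3, c4, -, -, -, -, c5, c6, c7, c8⟩ := hc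
  have hk0 : 0 < k := by omega
  rcases hz with hz | hz | hz | hz
  · subst hz
    have t1 : fb ≥ k - 2 * r - 1 := by omega
    have t2 : fa ≤ 5 * r := by omega
    have t3 : fc ≤ 5 * r := by omega
    rcases le_or_gt z' 0 with h | h
    · have : k * z' ≤ 0 := mul_nonpos_of_nonneg_of_nonpos hk0.le h
      generalize k * z' = T at *
      omega
    · have : k * z' ≥ k := by nlinarith
      generalize k * z' = T at *
      omega
  · subst hz
    have t1 : fb ≤ 3 * r + 1 := by omega
    have t2 : fa ≥ k - 5 * r - 1 := by omega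
    have t3 : fc ≥ k - 5 * r - 1 := by omega
    rcases le_or_gt 0 z' with h | h
    · have : 0 ≤ k * z' := mul_nonneg hk0.le h
      generalize k * z' = T at *
      omega
    · have : k * z' ≤ -k := by nlinarith
      generalize k * z' = T at *
      omega
  · subst hz
    have t1 : gb ≥ k - 2 * r - 1 := by omega
    have t2 : ga ≤ 5 * r := by omega
    have t3 : gc ≤ 5 * r := by omega
    rcases le_or_gt 0 z with h | h
    · have : 0 ≤ k * z := mul_nonneg hk0.le h
      generalize k * z = T at *
      omega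
    · have : k * z ≤ -k := by nlinarith
      generalize k * z = T at *
      omega
  · subst hz
    have t1 : gb ≤ 3 * r + 1 := by omega
    have t2 : ga ≥ k - 5 * r - 1 := by omega
    have t3 : gc ≥ k - 5 * r - 1 := by omega
    rcases le_or_gt z 0 with h | h
    · have : k * z ≤ 0 := mul_nonpos_of_nonneg_of_nonpos hk0.le h
      generalize k * z = T at *
      omega
    · have : k * z ≥ k := by nlinarith
      generalize k * z = T at *
      omega

end Pool.Agent.P8H22.GP
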