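import Pool.Agent.P8H22.GPKey

/-!
# Lifting a coarse good permutation of `ℤ/m` to `ℤ/n`, `n = m k + r`
-/

set_option linter.unusedVariables false

namespace Pool.Agent.P8H22.GP

/-- The lifted permutation of `[0, m k + r)`. -/
def lift (k r : ℤ) (P σ τ : ℤ → ℤ) (x : ℤ) : ℤ :=
  if x < k + r then τ x else k * P ((x - r) / k) + r + σ ((x - r) % k)

/-- Decomposition of a point of the lifted permutation. -/
inductive Dec2 (m k r : ℤ) (P σ τ : ℤ → ℤ) (x y : ℤ) : Prop
  | big (f : ℤ) (h : Pt (k + r) f (τ f)) (hx : x = f) (hy : y = τ f) : Dec2 ..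
  | small (i f : ℤ) (hi : 1 ≤ i) (hi' : i < m) (hP : 1 ≤ P i) (hP' : P i < m)
      (h : Pt k f (σ f)) (hx : x = k * i + r + f) (hy : y = k * P i + r + σ f) : Dec2 ..

section
variable {m k r : ℤ} {P σ τ : ℤ → ℤ}

theorem lift_dec (hm : 3 ≤ m) (hP : Coarse m P) (hr : 0 ≤ r) (hk : 100000 * (r + 1) ≤ k)
    (hσ : Nice k σ) (hτ : Nice (k + r) τ) (x : ℤ) (hx0 : 0 ≤ x) (hx1 : x < m * k + r) :
    Dec2 m k r P σ τ x (lift k r P σ τ x) := by
  have hk0 : 0 < k := by omega
  unfold lift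
  split_ifs with c
  · exact Dec2.big x (hτ.pt x hx0 c) rfl rfl
  · have e1 : k * ((x - r) / k) + (x - r) % k = x - r := Int.mul_ediv_add_emod _ _
    have e2 : 0 ≤ (x - r) % k := Int.emod_nonneg _ hk0.ne'
    have e3 : (x - r) % k < k := Int.emod_lt_of_pos _ hk0
    have i1 : 1 ≤ (x - r) / k := by
      by_contra hlt
      have : k * ((x - r) / k) ≤ 0 := mul_nonpos_of_nonneg_of_nonpos hk0.le (by omega)
      omega
    have i2 : (x - r) / k < m := by
      by_contra hlt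
      have : k * m ≤ k * ((x - r) / k) := mul_le_mul_of_nonneg_left (by omega) hk0.le
      have h2 : k * m = m * k := mul_comm _ _
      omega
    have P0 := hP.maps _ (by omega : 0 ≤ (x - r) / k) i2
    have P1 : 1 ≤ P ((x - r) / k) := by
      by_contra hlt
      have h0 : P ((x - r) / k) = P 0 := by rw [hP.zero]; omega
      have := hP.inj _ _ (by omega) i2 le_rfl (by omega) h0
      omega
    exact Dec2.small _ _ i1 i2 P1 P0.2 (hσ.pt _ e2 e3) (by omega) rfl

theorem lift_lt (hm : 3 ≤ m) (hr : 0 ≤ r) (hk : 100000 * (r + 1) ≤ k) {x y : ℤ}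
    (h : Dec2 m k r P σ τ x y) : 0 ≤ y ∧ y < m * k + r := by
  have hk0 : 0 < k := by omega
  cases h with
  | big f h hx hy =>
    have := h.g0; have := h.g1
    have : 3 * k ≤ m * k := by nlinarith
    constructor <;> omega
  | small i f hi hi' hP hP' h hx hy =>
    have := h.g0; have := h.g1
    have h1 : k * P i ≤ k * (m - 1) := mul_le_mul_of_nonneg_left (by omega) hk0.le
    have h2 : k * (m - 1) = m * k - k := by ring
    have h3 : 0 ≤ k * P i := mul_nonneg hk0.le (by omega)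
    constructor <;> omega

theorem lift_inj (hm : 3 ≤ m) (hP : Coarse m P) (hr : 0 ≤ r) (hk : 100000 * (r + 1) ≤ k)
    (hσ : Nice k σ) (hτ : Nice (k + r) τ) {x x' y : ℤ}
    (h : Dec2 m k r P σ τ x y) (h' : Dec2 m k r P σ τ x' y) : x = x' := by
  have hk0 : 0 < k := by omega
  rcases h with ⟨f, h, hx, hy⟩ | ⟨i, f, hi, hi', hP1, hP2, h, hx, hy⟩ <;>
  rcases h' with ⟨f', h', hx', hy'⟩ | ⟨i', f', ji, ji', jP1, jP2, h', hx', hy'⟩
  · rw [hx, hx']
    exact hτ.inj _ _ h.f0 h.f1 h'.f0 h'.f1 (by omega)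
  · exfalso
    have := h.g1; have := h'.g0
    have : k * 1 ≤ k * P i' := mul_le_mul_of_nonneg_left jP1 hk0.le
    omega
  · exfalso
    have := h'.g1; have := h.g0
    have : k * 1 ≤ k * P i := mul_le_mul_of_nonneg_left hP1 hk0.le
    omega
  · have g0 := h.g0; have g1 := h.g1; have g0' := h'.g0; have g1' := h'.g1
    have e : P i = P i' := by
      rcases lt_trichotomy (P i) (P i') with hl | hl | hl
      · exfalso
        have : k * (P i + 1) ≤ k * P i' := mul_le_mul_of_nonneg_left (by omega) hk0.le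
        have e : k * (P i + 1) = k * P i + k := by ring
        omega
      · exact hl
      · exfalso
        have : k * (P i' + 1) ≤ k * P i := mul_le_mul_of_nonneg_left (by omega) hk0.le
        have e : k * (P i' + 1) = k * P i' + k := by ring
        omega
    have ei : i = i' := hP.inj _ _ (by omega) hi' (by omega) ji' e
    rw [e] at hy
    have ef := hσ.inj _ _ h.f0 h.f1 h'.f0 h'.f1 (by omega)
    subst ei ef
    omega

/-- Common form of a decomposition. -/
theorem Dec2.common (hm : 3 ≤ m) (hP : Coarse m P) (hr : 0 ≤ r) {x y : ℤ}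
    (h : Dec2 m k r P σ τ x y) :
    ∃ i f g d ρ : ℤ, 0 ≤ i ∧ i < m ∧ Pt d f g ∧ k ≤ d ∧ d ≤ k + r ∧ 0 ≤ ρ ∧ ρ ≤ r ∧
      x = k * i + ρ + f ∧ y = k * P i + ρ + g ∧
      ((i = 0 ∧ ρ = 0 ∧ d = k + r ∧ g = τ f) ∨ (i ≠ 0 ∧ ρ = r ∧ d = k ∧ g = σ f)) := by
  rcases h with ⟨f, h, hx, hy⟩ | ⟨i, f, hi, hi', hP1, hP2, h, hx, hy⟩
  · refine ⟨0, f, τ f, k + r, 0, le_rfl, by omega, h, by omega, by omega, le_rfl, hr, by omega, ?_,
      Or.inl ⟨rfl, rfl, rfl, rfl⟩⟩
    rw [hP.zero]; omega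
  · exact ⟨i, f, σ f, k, r, by omega, hi', h, by omega, by omega, hr, le_rfl, hx, hy,
      Or.inr ⟨by omega, rfl, rfl, rfl⟩⟩

theorem lift_good (hm : 3 ≤ m) (hP : Coarse m P) (hr : 0 ≤ r) (hk : 100000 * (r + 1) ≤ k)
    (hσ : Nice k σ) (hτ : Nice (k + r) τ) {a b c ya yb yc u v : ℤ}
    (ha : Dec2 m k r P σ τ a ya) (hb : Dec2 m k r P σ τ b yb) (hc : Dec2 m k r P σ τ c yc)
    (hu : u = 0 ∨ u = 1 ∨ u = -1) (hv : v = 0 ∨ v = 1 ∨ v = -1)
    (i1 : -1 ≤ a + c - 2 * b - u * (m * k + r)) (i2 : a + c - 2 * b - u * (m * k + r) ≤ 1)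
    (o1 : -1 ≤ ya + yc - 2 * yb - v * (m * k + r)) (o2 : ya + yc - 2 * yb - v * (m * k + r) ≤ 1) :
    a = b ∧ c = b := by
  have hk0 : 0 < k := by omega
  obtain ⟨ia, fa, ga, da, ra, ia0, ia1, pa, da0, da1, ra0, ra1, xa, ya', ca⟩ := ha.common hm hP hr
  obtain ⟨ib, fb, gb, db, rb, ib0, ib1, pb, db0, db1, rb0, rb1, xb, yb', cb⟩ := hb.common hm hP hr
  obtain ⟨ic, fc, gc, dc, rc, ic0, ic1, pc, dc0, dc1, rc0, rc1, xc, yc', cc⟩ := hc.common hm hP hr
  obtain ⟨z, hz⟩ : ∃ z, z = ia + ic - 2 * ib - u * m := ⟨_, rfl⟩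
  obtain ⟨z', hz'⟩ : ∃ z', z' = P ia + P ic - 2 * P ib - v * m := ⟨_, rfl⟩
  obtain ⟨e1, he1⟩ : ∃ e1, e1 = k * z + (fa + fc - 2 * fb) := ⟨_, rfl⟩
  obtain ⟨e2, he2⟩ : ∃ e2, e2 = k * z' + (ga + gc - 2 * gb) := ⟨_, rfl⟩
  have E1 : e1 = (a + c - 2 * b - u * (m * k + r)) + u * r - (ra + rc - 2 * rb) := by
    rw [he1, hz, xa, xb, xc]; ring
  have E2 : e2 = (ya + yc - 2 * yb - v * (m * k + r)) + v * r - (ra + rc - 2 * rb) := by
    rw [he2, hz', ya', yb', yc']; ring
  have ur : -r ≤ u * r ∧ u * r ≤ r := by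
    rcases hu with h | h | h <;> subst h <;> omega
  have vr : -r ≤ v * r ∧ v * r ≤ r := by
    rcases hv with h | h | h <;> subst h <;> omega
  have B1 : -(3 * r + 1) ≤ e1 ∧ e1 ≤ 3 * r + 1 := by
    generalize u * r = U at *
    generalize u * (m * k + r) = V at *
    omega
  have B2 : -(3 * r + 1) ≤ e2 ∧ e2 ≤ 3 * r + 1 := by
    generalize v * r = U at *
    generalize v * (m * k + r) = V at *
    omega
  have H1 : k * z = -(fa + fc - 2 * fb) + e1 := by omega
  have H2 : k * z' = -(ga + gc - 2 * gb) + e2 := by omega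
  have fa0 := pa.f0; have fa1 := pa.f1; have ga0 := pa.g0; have ga1 := pa.g1
  have fb0 := pb.f0; have fb1 := pb.f1; have gb0 := pb.g0; have gb1 := pb.g1
  have fc0 := pc.f0; have fc1 := pc.f1; have gc0 := pc.g0; have gc1 := pc.g1
  -- `|z| ≤ 2` and `|z'| ≤ 2`
  have Z1 : z ≤ 2 := by
    by_contra hlt
    have : k * 3 ≤ k * z := mul_le_mul_of_nonneg_left (by omega) hk0.le
    generalize k * z = T at *
    omega
  have Z2 : -2 ≤ z := by
    by_contra hlt
    have : k * z ≤ k * (-3) := mul_le_mul_of_nonneg_left (by omega) hk0.le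
    generalize k * z = T at *
    omega
  have Z1' : z' ≤ 2 := by
    by_contra hlt
    have : k * 3 ≤ k * z' := mul_le_mul_of_nonneg_left (by omega) hk0.le
    generalize k * z' = T at *
    omega
  have Z2' : -2 ≤ z' := by
    by_contra hlt
    have : k * z' ≤ k * (-3) := mul_le_mul_of_nonneg_left (by omega) hk0.le
    generalize k * z' = T at *
    omega
  by_cases hz2 : z = 2 ∨ z = -2 ∨ z' = 2 ∨ z' = -2
  · exact (key hr hk pa pb pc ⟨da0, da1⟩ ⟨db0, db1⟩ ⟨dc0, dc1⟩ B1 B2 H1 H2 hz2).elim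
  · have hi := hP.good ia ib ic u v ia0 ia1 ib0 ib1 ic0 ic1 (by omega) (by omega) (by omega)
      (by omega)
    obtain ⟨h1, h2⟩ := hi
    subst h1
    subst h2
    have hzu : z = -(u * m) := by rw [hz]; ring
    have hzv : z' = -(v * m) := by rw [hz']; ring
    have hu0 : u = 0 := by
      rcases hu with h | h | h
      · exact h
      · subst h; omega
      · subst h; omega
    have hv0 : v = 0 := by
      rcases hv with h | h | h
      · exact h
      · subst h; omega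
      · subst h; omega
    subst hu0 hv0
    have hab : ra = rb ∧ rc = rb := by omega
    obtain ⟨h3, h4⟩ := hab
    subst h3
    subst h4
    rcases ca with ⟨h5, h6, h7, h8⟩ | ⟨h5, h6, h7, h8⟩
    · rcases cb with ⟨j5, j6, j7, j8⟩ | ⟨j5, j6, j7, j8⟩
      · rcases cc with ⟨k5, k6, k7, k8⟩ | ⟨k5, k6, k7, k8⟩
        · have := hτ.good fa fb fc fa0 (by omega) fb0 (by omega) fc0 (by omega) (by omega)
            (by omega) (by omega) (by omega)
          omega
        · exact absurd h5 k5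
      · exact absurd h5 j5
    · rcases cb with ⟨j5, j6, j7, j8⟩ | ⟨j5, j6, j7, j8⟩
      · exact absurd j5 h5
      · rcases cc with ⟨k5, k6, k7, k8⟩ | ⟨k5, k6, k7, k8⟩
        · exact absurd k5 h5
        · have := hσ.good fa fb fc fa0 (by omega) fb0 (by omega) fc0 (by omega) (by omega)
            (by omega) (by omega) (by omega)
          omega

end

end Pool.Agent.P8H22.GP
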